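import Pool.Agent.Lib.MP_1d1228_co.Final

/-!
MP_1d1228_co, Q1: for which sets `B` of levels is weak `(ℕ₊ \ B)`-compatibility strictly weaker
than `(ℕ₊ \ B)`-compatibility? Answer: exactly when `1 ∈ B` and `B ≠ ℕ₊`.
-/

open MeasureTheory

namespace Pool.Agent.Results.MP_1d1228_co.WeakVersusStrong

open Pool.Agent.Lib.MP_1d1228_co

/-- Weak `(ℕ₊ \ B)`-compatibility is strictly weaker than `(ℕ₊ \ B)`-compatibility: there are a
finite relational language, a universal theory `T` in it and a limit object of `T` that is weakly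
`(ℕ₊ \ B)`-compatible but not `(ℕ₊ \ B)`-compatible. -/
def StrictlyWeaker {X : Type*} [MeasurableSpace X] (μ : Measure X) (B : Set ℕ+) : Prop :=
  ∃ (L : FirstOrder.Language.{0, 0}) (_ : L.IsRelational) (_ : Finite (Σ k, L.Relations k))
    (T : L.Theory) (φ : Measure (Str L)), T.IsUniversal ∧ IsLimitObject μ T φ ∧
      WeaklyCompatibleCompl μ T B φ ∧ ¬ Compatible μ T Bᶜ φ

/-- Over every atomless standard Borel probability space and for every `B ⊆ ℕ₊`, weak
`(ℕ₊ \ B)`-compatibility is strictly weaker than `(ℕ₊ \ B)`-compatibility if and only if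
`1 ∈ B` and `B ≠ ℕ₊`. -/
theorem result {X : Type*} [MeasurableSpace X] [StandardBorelSpace X] (μ : Measure X)
    [IsProbabilityMeasure μ] [NullSingletonClass μ] (B : Set ℕ+) :
    StrictlyWeaker μ B ↔ (1 ∈ B ∧ B ≠ Set.univ) := by
  constructor
  · rintro ⟨L, hL, hfin, T, φ, -, -, hw, hn⟩
    refine ⟨?_, ?_⟩
    · by_contra h1
      exact hn (compatible_of_weak μ T φ B h1 hw)
    · rintro rfl
      exact hn (compatible_of_weak_univ μ T φ hw)
  · rintro ⟨h1, hB⟩
    exact exists_counterexample μ B h1 hB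

end Pool.Agent.Results.MP_1d1228_co.WeakVersusStrong
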